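import Pool.Agent.Helper38.RS.Goals4

/-!
# Packet RS-SLG: the twisted Selmer group is a subgroup
-/

set_option autoImplicit false

namespace Pool.Agent.Helper83.RS

open NumberField Polynomial Module IsDedekindDomain Pool.Agent.Helper51.SigLeo
open Pool.Agent.Helper38.RS WithZero

section primes

variable {M : Type} [Field M] [NumberField M]

/-- conjugate prime -/
theorem exists_conj (v : HeightOneSpectrum (𝓞 M)) (e : M ≃+* M) :
    ∃ v' : HeightOneSpectrum (𝓞 M), ∀ y : M, v'.valuation M y = v.valuation M (e y) := by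
  obtain ⟨E, hE⟩ : ∃ E : 𝓞 M ≃+* 𝓞 M, E = RingOfIntegers.mapRingEquiv e := ⟨_, rfl⟩
  have hEv : ∀ r : 𝓞 M, ((E r : 𝓞 M) : M) = e (r : M) := fun r => by rw [hE]; rfl
  have hp : (v.asIdeal.comap (E : 𝓞 M →+* 𝓞 M)).IsPrime := by
    have := v.isPrime
    exact Ideal.comap_isPrime _ _
  have hpow : ∀ n : ℕ, (v.asIdeal.comap (E : 𝓞 M →+* 𝓞 M)) ^ n =
      (v.asIdeal ^ n).comap (E : 𝓞 M →+* 𝓞 M) := by
    intro n
    have h1 : ∀ I : Ideal (𝓞 M), I.comap (E : 𝓞 M →+* 𝓞 M) =
        I.map ((E.symm : 𝓞 M ≃+* 𝓞 M) : 𝓞 M →+* 𝓞 M) := by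
      intro I
      exact (Ideal.map_symm E).symm
    rw [h1, h1, Ideal.map_pow]
  have hne : v.asIdeal.comap (E : 𝓞 M →+* 𝓞 M) ≠ ⊥ := by
    intro h
    obtain ⟨r, hr, hr0⟩ := Submodule.exists_mem_ne_zero_of_ne_bot v.ne_bot
    have h2 : E.symm r ∈ v.asIdeal.comap (E : 𝓞 M →+* 𝓞 M) := by
      rw [Ideal.mem_comap]
      show E (E.symm r) ∈ v.asIdeal
      rw [RingEquiv.apply_symm_apply]
      exact hr
    rw [h, Ideal.mem_bot] at h2
    exact hr0 (E.symm.map_eq_zero_iff.1 h2)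
  refine ⟨⟨v.asIdeal.comap (E : 𝓞 M →+* 𝓞 M), hp, hne⟩, ?_⟩
  obtain ⟨v', hv'⟩ : ∃ v' : HeightOneSpectrum (𝓞 M),
      v' = ⟨v.asIdeal.comap (E : 𝓞 M →+* 𝓞 M), hp, hne⟩ := ⟨_, rfl⟩
  rw [← hv']
  have hint : ∀ r : 𝓞 M, v'.intValuation r = v.intValuation (E r) := by
    intro r
    rcases eq_or_ne r 0 with rfl | hr
    · rw [map_zero, map_zero, map_zero]
    have hr' : E r ≠ 0 := fun h => hr (E.map_eq_zero_iff.1 h)
    have h1 : ∀ n : ℕ, v'.intValuation r ≤ exp (-(n : ℤ)) ↔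
        v.intValuation (E r) ≤ exp (-(n : ℤ)) := by
      intro n
      rw [v'.intValuation_le_pow_iff_mem, v.intValuation_le_pow_iff_mem, hv']
      show r ∈ (v.asIdeal.comap (E : 𝓞 M →+* 𝓞 M)) ^ n ↔ _
      rw [hpow, Ideal.mem_comap]
      rfl
    rw [v'.intValuation_if_neg hr, v.intValuation_if_neg hr'] at h1 ⊢
    apply le_antisymm
    · exact (h1 _).2 le_rfl
    · exact (h1 _).1 le_rfl
  intro y
  obtain ⟨r, s, hs, rfl⟩ := IsFractionRing.div_surjective (A := 𝓞 M) y
  have h3 : ∀ r : 𝓞 M, v'.valuation M (algebraMap (𝓞 M) M r) =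
      v.valuation M (e (algebraMap (𝓞 M) M r)) := by
    intro r
    rw [v'.valuation_of_algebraMap, hint, ← v.valuation_of_algebraMap (K := M)]
    exact congrArg (v.valuation M) (hEv r)
  rw [map_div₀, map_div₀, map_div₀, h3, h3]

theorem ordv_mul (v : HeightOneSpectrum (𝓞 M)) (x y : Mˣ) :
    ordv v ((x * y : Mˣ) : M) = ordv v (x : M) + ordv v (y : M) := by
  unfold ordv
  rw [Units.val_mul, map_mul, log_mul, neg_add]
  · rw [Ne, Valuation.zero_iff]
    exact x.ne_zero
  · rw [Ne, Valuation.zero_iff]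
    exact y.ne_zero

theorem ordv_inv (v : HeightOneSpectrum (𝓞 M)) (x : Mˣ) :
    ordv v ((x⁻¹ : Mˣ) : M) = -ordv v (x : M) := by
  unfold ordv
  rw [Units.val_inv_eq_inv_val, map_inv₀, log_inv]

theorem ordv_one (v : HeightOneSpectrum (𝓞 M)) : ordv v (1 : M) = 0 := by
  unfold ordv
  rw [map_one, log_one, neg_zero]

theorem locSq_mul {v : HeightOneSpectrum (𝓞 M)} {x y : M} (hx : LocSq v x) (hy : LocSq v y) :
    LocSq v (x * y) := by
  obtain ⟨a, ha⟩ := hx
  obtain ⟨b, hb⟩ := hy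
  refine ⟨a * b, ?_⟩
  have e : x * y * (a * b) ^ 2 - 1 = (x * a ^ 2 - 1) * (y * b ^ 2) + (y * b ^ 2 - 1) := by ring
  rw [e]
  have h1 : v.valuation M (y * b ^ 2) ≤ 1 := by
    have e2 : y * b ^ 2 = (y * b ^ 2 - 1) + 1 := by ring
    rw [e2]
    exact Valuation.map_add_le _ hb.le (by rw [map_one])
  apply Valuation.map_add_lt _ _ hb
  rw [map_mul]
  calc v.valuation M (x * a ^ 2 - 1) * v.valuation M (y * b ^ 2) ≤
      v.valuation M (x * a ^ 2 - 1) * 1 := mul_le_mul_right h1 _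
    _ < 1 := by rw [mul_one]; exact ha

theorem locSq_sq (v : HeightOneSpectrum (𝓞 M)) {z : M} (hz : z ≠ 0) : LocSq v (z ^ 2) := by
  refine ⟨z⁻¹, ?_⟩
  rw [← mul_pow, mul_inv_cancel₀ hz, one_pow, sub_self, map_zero]
  exact zero_lt_one

theorem locSq_of_sq_mul {v : HeightOneSpectrum (𝓞 M)} {c x : M} (h : LocSq v (c ^ 2 * x)) :
    LocSq v x := by
  obtain ⟨y, hy⟩ := h
  refine ⟨c * y, ?_⟩
  have e : x * (c * y) ^ 2 - 1 = c ^ 2 * x * y ^ 2 - 1 := by ring
  rw [e]
  exact hy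

theorem tame_mul {v : HeightOneSpectrum (𝓞 M)} {a : M} {x y : M} (hx : Tame v a x)
    (hy : Tame v a y) : Tame v a (x * y) := by
  rcases hx with hx | hx <;> rcases hy with hy | hy
  · exact Or.inl (locSq_mul hx hy)
  · right
    have := locSq_mul hx hy
    have e : x * -(a * y) = -(a * (x * y)) := by ring
    rwa [e] at this
  · right
    have := locSq_mul hx hy
    have e : -(a * x) * y = -(a * (x * y)) := by ring
    rwa [e] at this
  · left
    have := locSq_mul hx hy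
    have e : -(a * x) * -(a * y) = a ^ 2 * (x * y) := by ring
    rw [e] at this
    exact locSq_of_sq_mul this

theorem tame_inv {v : HeightOneSpectrum (𝓞 M)} {a : M} {x : M} (h0 : x ≠ 0) (hx : Tame v a x) :
    Tame v a x⁻¹ := by
  rcases hx with hx | hx
  · left
    have e : x ^ 2 * x⁻¹ = x := by
      field_simp
    exact locSq_of_sq_mul (c := x) (by rwa [e])
  · right
    have e : x ^ 2 * -(a * x⁻¹) = -(a * x) := by
      field_simp
    exact locSq_of_sq_mul (c := x) (by rwa [e])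

theorem locSq_map {v v' : HeightOneSpectrum (𝓞 M)} {e : M ≃+* M}
    (h : ∀ y : M, v'.valuation M y = v.valuation M (e y)) {x : M} (hx : LocSq v' x) :
    LocSq v (e x) := by
  obtain ⟨y, hy⟩ := hx
  refine ⟨e y, ?_⟩
  rw [h, map_sub, map_mul, map_pow, map_one] at hy
  exact hy

end primes

/-- **S_SLG** -/
theorem s_slg : S_SLG := by
  intro k _ _ L K M _ _ _ _ _ δ P T a ha
  have hL1 : L.toFun 1 = 0 := by
    have := L.map_mul 1 1
    rw [mul_one] at this
    simpa using this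
  have hLinv : ∀ u : kˣ, L.toFun u⁻¹ = -L.toFun u := by
    intro u
    have := L.map_mul u u⁻¹
    rw [mul_inv_cancel, hL1] at this
    exact (neg_eq_of_add_eq_zero_right this.symm).symm
  have hsq : ∀ x : Mˣ, Sq x → Sel L (above T) P δ (algebraMap K M a) x := by
    rintro x ⟨z, rfl⟩
    refine ⟨⟨pol P δ z, by rw [map_pow]⟩, fun v _ => ?_, fun v _ => Or.inl ?_, fun N => ?_⟩
    · rw [sq, ordv_mul]
      exact ⟨_, rfl⟩
    · rw [Units.val_pow_eq_pow_val]
      exact locSq_sq v z.ne_zero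
    · refine ⟨z⁻¹, fun τ _ => ?_⟩
      rw [← mul_pow, mul_inv_cancel, one_pow]
      refine ⟨by rw [Units.val_one, map_one, norm_one], ?_⟩
      rw [map_one, hL1, norm_zero]
      positivity
  refine ⟨{ carrier := {x | Sel L (above T) P δ (algebraMap K M a) x}
            mul_mem' := ?_
            one_mem' := hsq 1 ⟨1, by rw [one_pow]⟩
            inv_mem' := ?_ }, fun x => Iff.rfl, hsq, ?_⟩
  · rintro x y ⟨x1, x2, x3, x4⟩ ⟨y1, y2, y3, y4⟩
    refine ⟨?_, fun v hv => ?_, fun v hv => ?_, fun N => ?_⟩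
    · obtain ⟨c, hc⟩ := x1
      obtain ⟨d, hd⟩ := y1
      exact ⟨c * d, by rw [map_mul, hc, hd, mul_pow]⟩
    · rw [ordv_mul]
      exact (x2 v hv).add (y2 v hv)
    · rw [Units.val_mul]
      exact tame_mul (x3 v hv) (y3 v hv)
    · obtain ⟨c, hc⟩ := x4 N
      obtain ⟨d, hd⟩ := y4 N
      refine ⟨c * d, fun τ hτ => ?_⟩
      obtain ⟨c1, c2⟩ := hc τ hτ
      obtain ⟨d1, d2⟩ := hd τ hτ
      have e : x * y * (c * d) ^ 2 = (x * c ^ 2) * (y * d ^ 2) := by
        rw [mul_pow]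
        exact mul_mul_mul_comm _ _ _ _
      rw [e]
      refine ⟨by rw [Units.val_mul, map_mul, norm_mul, c1, d1, mul_one], ?_⟩
      rw [map_mul, L.map_mul]
      exact (IsUltrametricDist.norm_add_le_max _ _).trans (max_le c2 d2)
  · rintro x ⟨x1, x2, x3, x4⟩
    refine ⟨?_, fun v hv => ?_, fun v hv => ?_, fun N => ?_⟩
    · obtain ⟨c, hc⟩ := x1
      exact ⟨c⁻¹, by rw [map_inv, hc, inv_pow]⟩
    · rw [ordv_inv]
      exact (x2 v hv).neg
    · rw [Units.val_inv_eq_inv_val]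
      exact tame_inv x.ne_zero (x3 v hv)
    · obtain ⟨c, hc⟩ := x4 N
      refine ⟨c⁻¹, fun τ hτ => ?_⟩
      obtain ⟨c1, c2⟩ := hc τ hτ
      have e : x⁻¹ * c⁻¹ ^ 2 = (x * c ^ 2)⁻¹ := by
        rw [mul_inv, inv_pow]
      rw [e]
      refine ⟨by rw [Units.val_inv_eq_inv_val, map_inv₀, norm_inv, c1, inv_one], ?_⟩
      rw [map_inv, hLinv, norm_neg]
      exact c2
  · rintro x ⟨x1, x2, x3, x4⟩
    obtain ⟨D, hD⟩ : ∃ D : Mˣ →* Mˣ, D = Units.map ((δ : M →+* M) : M →* M) := ⟨_, rfl⟩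
    rw [← hD]
    have hDv : ∀ y : Mˣ, ((D y : Mˣ) : M) = δ (y : M) := fun y => by rw [hD]; rfl
    have hcomm : ∀ y : Mˣ, pol P δ (D y) = D (pol P δ y) := by
      intro y
      unfold pol
      rw [MonoidHom.finsetProd_apply, MonoidHom.finsetProd_apply, map_prod]
      apply Finset.prod_congr rfl
      intro j _
      apply Units.ext
      rw [hDv]
      show (δ ^ j) ((D y : Mˣ) : M) = δ ((δ ^ j) (y : M))
      rw [hDv, ← AlgEquiv.mul_apply, ← AlgEquiv.mul_apply, ← pow_succ, ← pow_succ']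
    refine ⟨?_, fun v hv => ?_, fun v hv => ?_, fun N => ?_⟩
    · obtain ⟨c, hc⟩ := x1
      exact ⟨D c, by rw [hcomm, hc, map_pow]⟩
    · obtain ⟨v', hv'⟩ := exists_conj v (δ : M ≃+* M)
      have e1 : ordv v' (algebraMap K M a) = ordv v (algebraMap K M a) := by
        unfold ordv
        rw [hv']
        show -log (v.valuation M (δ (algebraMap K M a))) = _
        rw [AlgEquiv.commutes]
      have e2 : ordv v' (x : M) = ordv v ((D x : Mˣ) : M) := by
        unfold ordv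
        rw [hv', hDv]
        rfl
      rw [← e2]
      exact x2 v' (by rw [e1]; exact hv)
    · obtain ⟨v', hv'⟩ := exists_conj v (δ : M ≃+* M)
      have e1 : ordv v' (algebraMap K M a) = ordv v (algebraMap K M a) := by
        unfold ordv
        rw [hv']
        show -log (v.valuation M (δ (algebraMap K M a))) = _
        rw [AlgEquiv.commutes]
      rcases x3 v' (by rw [e1]; exact hv) with h | h
      · left
        rw [hDv]
        exact locSq_map hv' h
      · right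
        rw [hDv]
        have h2 := locSq_map hv' h
        have e3 : (δ : M ≃+* M) (-(algebraMap K M a * (x : M))) =
            -(algebraMap K M a * δ (x : M)) := by
          show δ (-(algebraMap K M a * (x : M))) = _
          rw [map_neg, map_mul, AlgEquiv.commutes]
        rwa [e3] at h2
    · obtain ⟨c, hc⟩ := x4 N
      refine ⟨D c, fun τ hτ => ?_⟩
      have hτ' : τ.comp (δ : M →+* M) ∈ above (M := M) T := by
        show (τ.comp (δ : M →+* M)).comp (algebraMap K M) ∈ T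
        have e4 : (τ.comp (δ : M →+* M)).comp (algebraMap K M) = τ.comp (algebraMap K M) := by
          ext z
          show τ (δ (algebraMap K M z)) = τ (algebraMap K M z)
          rw [AlgEquiv.commutes]
        rw [e4]
        exact hτ
      obtain ⟨c1, c2⟩ := hc _ hτ'
      have e5 : D x * D c ^ 2 = D (x * c ^ 2) := by
        rw [map_mul, map_pow]
      rw [e5]
      refine ⟨by rw [hDv]; exact c1, ?_⟩
      have e6 : Units.map (τ : M →* k) (D (x * c ^ 2)) =
          Units.map ((τ.comp (δ : M →+* M) : M →+* k) : M →* k) (x * c ^ 2) := by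
        apply Units.ext
        show τ ((D (x * c ^ 2) : Mˣ) : M) = τ (δ ((x * c ^ 2 : Mˣ) : M))
        rw [hDv]
      rw [e6]
      exact c2

end Pool.Agent.Helper83.RS
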