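import Pool.Agent.Helper36.RS.Goals

/-!
# Packet MVP of project RF (existence part): polynomial expressions
-/

set_option autoImplicit false

namespace Pool.Agent.Helper83.RS

open Set Filter Topology MeasureTheory Pool.Agent.Helper36.RS

theorem le_abs_mul {x C y : ℝ} (h : x ≤ C * y) (hy : 0 ≤ y) : x ≤ |C| * y :=
  h.trans (mul_le_mul_of_nonneg_right (le_abs_self C) hy)

theorem bound0 (hH : ∀ k ≥ 8, ∃ C, ∀ u v : XS, sn k (u * v) ≤ C * (sn k u * sn k v))
    (Z : Type) [Fintype Z] (p : MvPolynomial Z ℝ) (j : ℕ) (hj : 8 ≤ j) (L : ℝ) :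
    ∃ C, 0 ≤ C ∧ ∀ z : Z → XS, (∀ i, sn j (z i) ≤ L) → sn j (MvPolynomial.aeval z p) ≤ C := by
  obtain ⟨K, hK⟩ := hH j hj
  induction p using MvPolynomial.induction_on with
  | C c =>
    refine ⟨sn j (algebraMap ℝ XS c), sn_nonneg _ _, fun z _ => ?_⟩
    rw [MvPolynomial.aeval_C]
  | add p q hp hq =>
    obtain ⟨C1, h1, h1'⟩ := hp
    obtain ⟨C2, h2, h2'⟩ := hq
    refine ⟨2 * (C1 + C2), by positivity, fun z hz => ?_⟩
    rw [map_add]
    refine (sn_add_le j _ _).trans ?_
    have := h1' z hz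
    have := h2' z hz
    linarith
  | mul_X p i hp =>
    obtain ⟨C1, h1, h1'⟩ := hp
    refine ⟨|K| * (C1 * |L|), by positivity, fun z hz => ?_⟩
    rw [map_mul, MvPolynomial.aeval_X]
    refine (le_abs_mul (hK _ _) (mul_nonneg (sn_nonneg _ _) (sn_nonneg _ _))).trans ?_
    refine mul_le_mul_of_nonneg_left ?_ (abs_nonneg _)
    exact mul_le_mul (h1' z hz) ((hz i).trans (le_abs_self L)) (sn_nonneg _ _) h1

/-- Packet MVP. -/
theorem mvp : Pool.Agent.Helper36.RS.G_MVP := by
  intro hS hP Z _ p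
  obtain ⟨hA, hB, -, -, hH, -, -⟩ := hP hS
  have sle : ∀ (k : ℕ) (z : Z → XS) (i : Z), sn k (z i) ≤ ∑ i, sn k (z i) := fun k z i =>
    Finset.single_le_sum (f := fun i => sn k (z i)) (fun _ _ => sn_nonneg _ _) (Finset.mem_univ i)
  have snn : ∀ (k : ℕ) (z : Z → XS), 0 ≤ ∑ i, sn k (z i) := fun k z =>
    Finset.sum_nonneg fun _ _ => sn_nonneg _ _
  refine ⟨fun k hk L => ?_, fun k L => ?_, fun k L => ?_⟩
  · -- (1)
    obtain ⟨K, hK⟩ := hA k hk
    have key : ∃ C, 0 ≤ C ∧ ∀ z : Z → XS, (∀ i, sn (k - 2) (z i) ≤ L) →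
        sn k (MvPolynomial.aeval z p) ≤ C * (1 + ∑ i, sn k (z i)) := by
      induction p using MvPolynomial.induction_on with
      | C c =>
        refine ⟨sn k (algebraMap ℝ XS c), sn_nonneg _ _, fun z _ => ?_⟩
        rw [MvPolynomial.aeval_C]
        have h1 := sn_nonneg k (algebraMap ℝ XS c)
        have h2 := snn k z
        nlinarith [mul_nonneg h1 h2]
      | add p q hp hq =>
        obtain ⟨C1, h1, h1'⟩ := hp
        obtain ⟨C2, h2, h2'⟩ := hq
        refine ⟨2 * (C1 + C2), by positivity, fun z hz => ?_⟩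
        rw [map_add]
        refine (sn_add_le k _ _).trans ?_
        have := h1' z hz
        have := h2' z hz
        linarith
      | mul_X p i hp =>
        obtain ⟨C1, h1, h1'⟩ := hp
        obtain ⟨C0, h0, h0'⟩ := bound0 hH Z p (k - 2) (by omega) L
        refine ⟨|K| * (C1 * |L| + C0), by positivity, fun z hz => ?_⟩
        rw [map_mul, MvPolynomial.aeval_X]
        refine (le_abs_mul (hK _ _) (add_nonneg (mul_nonneg (sn_nonneg _ _) (sn_nonneg _ _))
          (mul_nonneg (sn_nonneg _ _) (sn_nonneg _ _)))).trans ?_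
        rw [mul_assoc]
        refine mul_le_mul_of_nonneg_left ?_ (abs_nonneg _)
        have a1 : sn k (MvPolynomial.aeval z p) * sn (k - 2) (z i) ≤
            (C1 * (1 + ∑ i, sn k (z i))) * |L| :=
          mul_le_mul (h1' z hz) ((hz i).trans (le_abs_self L)) (sn_nonneg _ _)
            (mul_nonneg h1 (by have := snn k z; linarith))
        have a2 : sn (k - 2) (MvPolynomial.aeval z p) * sn k (z i) ≤
            C0 * (1 + ∑ i, sn k (z i)) :=
          mul_le_mul (h0' z hz) (by have := sle k z i; linarith) (sn_nonneg _ _) h0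
        calc _ ≤ (C1 * (1 + ∑ i, sn k (z i))) * |L| + C0 * (1 + ∑ i, sn k (z i)) :=
              add_le_add a1 a2
          _ = _ := by ring
    obtain ⟨C, -, hC⟩ := key
    exact ⟨C, hC⟩
  · -- (2)
    obtain ⟨K, hK⟩ := hB k
    have key : ∃ C, 0 ≤ C ∧ ∀ z z' : Z → XS, (∀ i, sn (k + 8) (z i) ≤ L) →
        (∀ i, sn (k + 8) (z' i) ≤ L) →
        sn k (MvPolynomial.aeval z p - MvPolynomial.aeval z' p) ≤ C * ∑ i, sn k (z i - z' i) := by
      induction p using MvPolynomial.induction_on with
      | C c =>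
        refine ⟨0, le_rfl, fun z z' _ _ => ?_⟩
        rw [MvPolynomial.aeval_C, MvPolynomial.aeval_C, sub_self, zero_mul]
        simp [sn]
      | add p q hp hq =>
        obtain ⟨C1, h1, h1'⟩ := hp
        obtain ⟨C2, h2, h2'⟩ := hq
        refine ⟨2 * (C1 + C2), by positivity, fun z z' hz hz' => ?_⟩
        rw [map_add, map_add, add_sub_add_comm]
        refine (sn_add_le k _ _).trans ?_
        have := h1' z z' hz hz'
        have := h2' z z' hz hz'
        linarith
      | mul_X p i hp =>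
        obtain ⟨C1, h1, h1'⟩ := hp
        obtain ⟨C0, h0, h0'⟩ := bound0 hH Z p (k + 8) (by omega) L
        refine ⟨2 * (|K| * (C0 + |L| * C1)), by positivity, fun z z' hz hz' => ?_⟩
        rw [map_mul, map_mul, MvPolynomial.aeval_X, MvPolynomial.aeval_X]
        have e : MvPolynomial.aeval z p * z i - MvPolynomial.aeval z' p * z' i =
            MvPolynomial.aeval z p * (z i - z' i) +
            z' i * (MvPolynomial.aeval z p - MvPolynomial.aeval z' p) := by ring
        rw [e]
        refine (sn_add_le k _ _).trans ?_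
        have s0 : 0 ≤ ∑ i, sn k (z i - z' i) := Finset.sum_nonneg fun _ _ => sn_nonneg _ _
        have s1 : sn k (z i - z' i) ≤ ∑ i, sn k (z i - z' i) :=
          Finset.single_le_sum (f := fun i => sn k (z i - z' i)) (fun _ _ => sn_nonneg _ _)
            (Finset.mem_univ i)
        have a1 : sn k (MvPolynomial.aeval z p * (z i - z' i)) ≤
            |K| * (C0 * ∑ i, sn k (z i - z' i)) := by
          refine (le_abs_mul (hK _ _) (mul_nonneg (sn_nonneg _ _) (sn_nonneg _ _))).trans ?_
          refine mul_le_mul_of_nonneg_left ?_ (abs_nonneg _)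
          exact mul_le_mul ((sn_mono (by omega) _).trans (h0' z hz)) s1 (sn_nonneg _ _) h0
        have a2 : sn k (z' i * (MvPolynomial.aeval z p - MvPolynomial.aeval z' p)) ≤
            |K| * (|L| * (C1 * ∑ i, sn k (z i - z' i))) := by
          refine (le_abs_mul (hK _ _) (mul_nonneg (sn_nonneg _ _) (sn_nonneg _ _))).trans ?_
          refine mul_le_mul_of_nonneg_left ?_ (abs_nonneg _)
          exact mul_le_mul ((sn_mono (by omega) _).trans ((hz' i).trans (le_abs_self L)))
            (h1' z z' hz hz') (sn_nonneg _ _) (abs_nonneg _)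
        calc _ ≤ 2 * (|K| * (C0 * ∑ i, sn k (z i - z' i)) +
              |K| * (|L| * (C1 * ∑ i, sn k (z i - z' i)))) := by linarith
          _ = _ := by ring
    obtain ⟨C, -, hC⟩ := key
    exact ⟨C, hC⟩
  · -- (3)
    obtain ⟨C, -, hC⟩ := bound0 hH Z p (k + 8) (by omega) L
    exact ⟨C, fun z hz => (sn_mono (by omega) _).trans (hC z hz)⟩

end Pool.Agent.Helper83.RS
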